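import Pool.Agent.Q283.FT.Stm2
import Pool.Agent.Q38.EN.EEX
import Pool.Agent.Q123.LK.SH2

/-!
JOB FT-G0: generators for which the reciprocity is symmetric.
-/

set_option autoImplicit false

namespace Pool.Agent.Q149.FT

open NumberField IsDedekindDomain Filter Topology Finset
open Pool.Agent.Q7.LK Pool.Agent.Q283.FT
open Pool.Agent.Q283.EN (P_BASE P_LOC Alt BB)
open Pool.Agent.Q283.LQ (Sm nS)
open Pool.Agent.Q14.LK (nn_mul nn_pp nn_of_mul_pp mon_ne mon_add mon_sum mon_smul)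

section Lin

variable {f : ℕ} {g : (Fin f → ZMod 2) → (Fin f → ZMod 2) → ZMod 2}

/-- the half of the form -/
def bta (g : (Fin f → ZMod 2) → (Fin f → ZMod 2) → ZMod 2) (φ : Fin f → ZMod 2) : Fin f → ZMod 2 :=
  fun m => ∑ l, if l < m then g (Pi.single l 1) (Pi.single m 1) * φ l else 0

theorem g_zero (hA : Alt g) (c : Fin f → ZMod 2) : g 0 c = 0 := by
  have h := hA.add 0 0 c
  rw [add_zero] at h
  exact left_eq_add.1 h

/-- additivity in the first argument -/
def gh (hA : Alt g) (c : Fin f → ZMod 2) : (Fin f → ZMod 2) →+ ZMod 2 where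
  toFun a := g a c
  map_zero' := g_zero hA c
  map_add' a b := hA.add a b c

theorem g_single (hA : Alt g) (l : Fin f) (a : ZMod 2) (c : Fin f → ZMod 2) :
    g (Pi.single l a) c = a * g (Pi.single l 1) c := by
  have h2 : ∀ a : ZMod 2, a = 0 ∨ a = 1 := by decide
  rcases h2 a with h | h
  · subst h
    rw [Pi.single_zero, g_zero hA, zero_mul]
  · subst h
    rw [one_mul]

theorem g_left (hA : Alt g) (φ c : Fin f → ZMod 2) : g φ c = ∑ l, φ l * g (Pi.single l 1) c := by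
  have h := map_sum (gh hA c) (fun l => Pi.single l (φ l)) univ
  rw [Finset.univ_sum_single φ] at h
  exact h.trans (sum_congr rfl fun l _ => g_single hA l _ _)

theorem g_symm (hA : Alt g) (a b : Fin f → ZMod 2) : g a b = g b a := by
  rw [hA.anti a b]
  exact ZMod.neg_eq_self_mod_two _

theorem g_bta (hA : Alt g) (φ φ' : Fin f → ZMod 2) : g φ φ' = dot φ' (bta g φ) + dot φ (bta g φ') := by
  have h1 : g φ φ' = ∑ l, ∑ m, φ l * (φ' m * g (Pi.single m 1) (Pi.single l 1)) := by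
    rw [g_left hA]
    refine sum_congr rfl fun l _ => ?_
    rw [g_symm hA, g_left hA, mul_sum]
  have h2 : dot φ' (bta g φ) =
      ∑ l, ∑ m, φ' m * (if l < m then g (Pi.single l 1) (Pi.single m 1) * φ l else 0) := by
    unfold dot bta
    simp_rw [mul_sum]
    exact sum_comm
  have h3 : dot φ (bta g φ') =
      ∑ l, ∑ m, φ l * (if m < l then g (Pi.single m 1) (Pi.single l 1) * φ' m else 0) := by
    unfold dot bta
    simp_rw [mul_sum]
  rw [h1, h2, h3, ← sum_add_distrib]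
  refine sum_congr rfl fun l _ => ?_
  rw [← sum_add_distrib]
  refine sum_congr rfl fun m _ => ?_
  rcases lt_trichotomy l m with h | h | h
  · rw [if_pos h, if_neg (not_lt.2 h.le), g_symm hA (Pi.single m 1)]
    ring
  · subst h
    simp only [lt_irrefl, if_false, hA.self, mul_zero, add_zero]
  · rw [if_neg (not_lt.2 h.le), if_pos h]
    ring

theorem bta_lin (φ : Fin f → ZMod 2) : ∑ l, φ l • bta g (Pi.single l 1) = bta g φ := by
  funext m
  rw [Finset.sum_apply]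
  unfold bta
  simp only [Pi.smul_apply, smul_eq_mul]
  simp_rw [mul_sum]
  rw [sum_comm]
  refine sum_congr rfl fun k _ => ?_
  rw [sum_eq_single k]
  · rw [Pi.single_eq_same]
    split
    · ring
    · ring
  · intro l _ hl
    rw [Pi.single_eq_of_ne (Ne.symm hl)]
    split
    · ring
    · ring
  · intro h
    exact absurd (mem_univ k) h

end Lin

section F

variable {F : Type} [Field F] [NumberField F] {ζ : F} {y f : ℕ} {u r : Fin f → F}
  {π : HeightOneSpectrum (𝓞 F) → F} {g : (Fin f → ZMod 2) → (Fin f → ZMod 2) → ZMod 2}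

theorem nn_iff (hB : S_BAS) {a b x : F} (hx : x ≠ 0) (h : a = b * x ^ 2) : Nn 2 y a ↔ Nn 2 y b := by
  have : Fact (Nat.Prime 2) := ⟨Nat.prime_two⟩
  rw [h]
  exact ⟨fun h1 => nn_of_mul_pp hB hx h1, fun h1 => nn_mul hB h1 (nn_pp hB y hx)⟩

/-- the new generators of the classes -/
noncomputable def rn (u r : Fin f → F) (g : (Fin f → ZMod 2) → (Fin f → ZMod 2) → ZMod 2) : Fin f → F :=
  fun l => r l * mon u (bta g (Pi.single l 1))

omit [NumberField F] in
theorem mon_new (hu : ∀ l, u l ≠ 0) (φ : Fin f → ZMod 2) :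
    ∃ x : F, x ≠ 0 ∧ mon (rn u r g) φ = mon r φ * mon u (bta g φ) * x ^ 2 := by
  have : Fact (Nat.Prime 2) := ⟨Nat.prime_two⟩
  choose x hx h1 using fun l => mon_smul hu (φ l) (bta g (Pi.single l 1))
  obtain ⟨z, hz, h2⟩ := mon_sum hu univ fun l => φ l • bta g (Pi.single l 1)
  refine ⟨z * ∏ l, x l, mul_ne_zero hz (prod_ne_zero_iff.2 fun l _ => hx l), ?_⟩
  have h3 : mon (rn u r g) φ = mon r φ * ∏ l, mon u (bta g (Pi.single l 1)) ^ (φ l).val := by
    unfold mon rn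
    rw [← prod_mul_distrib]
    exact prod_congr rfl fun l _ => mul_pow _ _ _
  rw [h3, prod_congr rfl fun l _ => h1 l, prod_mul_distrib, prod_pow, h2, bta_lin, mul_pow]
  ring

/-- the new generators of the primes -/
noncomputable def pin (ζ : F) (u : Fin f → F) (π : HeightOneSpectrum (𝓞 F) → F)
    (g : (Fin f → ZMod 2) → (Fin f → ZMod 2) → ZMod 2) : HeightOneSpectrum (𝓞 F) → F :=
  fun q => π q * mon u (bta g (fun l => sy 2 ζ q (u l)))

theorem base_new (hB : S_BAS) (hζ : IsPrimitiveRoot ζ 2) (B : Base 2 ζ y f u r π g) (hA : Alt g) :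
    Base 2 ζ y f u (rn u r g) (pin ζ u π g) (fun _ _ => 0) := by
  have : Fact (Nat.Prime 2) := ⟨Nat.prime_two⟩
  have hvm : ∀ (c : Fin f → ZMod 2) (v : HeightOneSpectrum (𝓞 F)), ¬ Sm y v → vl 2 v (mon u c) = 0 :=
    fun c v hv => Pool.Agent.Q14.LK.vl_mon hB B.ue v (fun l => B.uo l v hv) c
  have h22 : ∀ c : Fin f → ZMod 2, c + c = 0 := fun c => funext fun l => CharTwo.add_self_eq_zero (c l)
  refine ⟨B.two, B.ue, fun l => mul_ne_zero (B.re l) (mon_ne B.ue _), B.uo, B.ind, B.full, ?_, ?_, ?_, ?_⟩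
  · intro q hq
    obtain ⟨h1, h2⟩ := B.po q hq
    refine ⟨mul_ne_zero h1 (mon_ne B.ue _), fun v hv => ?_⟩
    rw [← h2 v hv]
    unfold pin
    rw [Pool.Agent.Q14.LK.vl_mul hB v h1 (mon_ne B.ue _), hvm _ v hv, add_zero]
  · intro b hb
    have key : ∀ x : (Fin f → ZMod 2) × (Fin f → ZMod 2),
        Nn 2 y (b * mon (rn u r g) x.1 * mon u x.2) ↔ Nn 2 y (b * mon r x.1 * mon u (x.2 + bta g x.1)) := by
      intro x
      obtain ⟨z, hz, h1⟩ := mon_new (r := r) (g := g) B.ue x.1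
      obtain ⟨w, hw, h2⟩ := mon_add B.ue x.2 (bta g x.1)
      refine nn_iff hB (mul_ne_zero hw hz) ?_
      calc b * mon (rn u r g) x.1 * mon u x.2
          = b * mon r x.1 * (mon u x.2 * mon u (bta g x.1)) * z ^ 2 := by rw [h1]; ring
        _ = b * mon r x.1 * mon u (x.2 + bta g x.1) * (w * z) ^ 2 := by rw [h2]; ring
    obtain ⟨z, hz, hu⟩ := B.cls b hb
    refine ⟨(z.1, z.2 + bta g z.1), ?_, ?_⟩
    · refine (key _).2 ?_
      show Nn 2 y (b * mon r z.1 * mon u (z.2 + bta g z.1 + bta g z.1))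
      rw [add_assoc, h22, add_zero]
      exact hz
    · intro x hx
      have h1 := hu (x.1, x.2 + bta g x.1) ((key x).1 hx)
      have h2 : x.1 = z.1 := by rw [← h1]
      have h3 : x.2 + bta g x.1 = z.2 := by rw [← h1]
      refine Prod.ext h2 ?_
      show x.2 = z.2 + bta g z.1
      rw [← h3, h2, add_assoc, h22, add_zero]
  · intro q hq
    have h1 := B.pc q hq
    obtain ⟨z, hz, h2⟩ := mon_new (r := r) (g := g) B.ue (fun l => sy 2 ζ q (u l))
    refine (nn_iff hB (mul_ne_zero (mon_ne B.ue (bta g fun l => sy 2 ζ q (u l))) hz) ?_).2 h1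
    rw [h2]
    unfold pin
    ring
  · intro q q' hq hq' hne
    have hd : ¬ Dp 2 q := fun h => hq (Pool.Agent.Q123.LK.sm_of_dp B.two h)
    have hd' : ¬ Dp 2 q' := fun h => hq' (Pool.Agent.Q123.LK.sm_of_dp B.two h)
    obtain ⟨h1, h2⟩ := B.po q hq
    obtain ⟨h1', h2'⟩ := B.po q' hq'
    have e1 := h2 q' hq'
    rw [if_neg hne.symm] at e1
    have e2 := h2' q hq
    rw [if_neg hne] at e2
    unfold pin
    rw [Pool.Agent.Q123.LK.sy_mul hB hζ hd' h1 (mon_ne B.ue _) e1 (hvm _ q' hq'),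
      Pool.Agent.Q123.LK.sy_mul hB hζ hd h1' (mon_ne B.ue _) e2 (hvm _ q hq),
      Pool.Agent.Q123.LK.sy_mon hB hζ hd' B.ue (fun l => B.uo l q' hq'),
      Pool.Agent.Q123.LK.sy_mon hB hζ hd B.ue (fun l => B.uo l q hq)]
    have h3 := B.rcp q q' hq hq' hne
    have h4 := g_bta hA (fun l => sy 2 ζ q (u l)) (fun l => sy 2 ζ q' (u l))
    rw [h4] at h3
    have h5 : (2 : ZMod 2) = 0 := CharTwo.two_eq_zero
    linear_combination h3 + dot (fun l => sy 2 ζ q' (u l)) (bta g fun l => sy 2 ζ q (u l)) * h5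

/-- **JOB FT-G0.** -/
theorem g0 (hBAS : S_BAS) (hFRM : Pool.Agent.Q283.EN.S_FRM) : S_G0 := by
  have : Fact (Nat.Prime 2) := ⟨Nat.prime_two⟩
  intro F _ _ i ζ hi hζ hBASE hLOC t ht
  have hHi : Pool.Agent.Q283.EN.Hi 2 F := fun _ => ⟨i, hi⟩
  obtain ⟨y0, hy0⟩ := hBASE
  refine ⟨y0, fun y hy => ?_⟩
  obtain ⟨f, u, r, π, g, B, hf⟩ := hy0 y hy
  have hfin := (hLOC y B.two).1
  obtain ⟨hA, -⟩ := hFRM 2 F ζ hζ hHi t ht y f u r π g B hfin
  have B' := base_new hBAS hζ B hA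
  obtain ⟨-, hF⟩ := hFRM 2 F ζ hζ hHi t ht y f u _ _ _ B' hfin
  have hle := Pool.Agent.Q38.EN.f_le hBAS B hζ hHi hLOC
  have hdeg := Pool.Agent.Q38.EN.deg_F hζ hHi
  have hpos : 0 < Module.finrank ℚ F := Module.finrank_pos
  refine ⟨f, u, _, _, B', ?_, by omega, by omega, hfin⟩
  intro a b x x' ha hb h h'
  rw [hF a b x x' ha hb h h', BB]
  rw [zero_add, CharTwo.sub_eq_add]

end F

end Pool.Agent.Q149.FT
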