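import Pool.Agent.Q283.FT.Stm2
import Pool.Agent.Q269.AV.A3

/-!
JOB FT-MLC: from the law to the mean.
-/

set_option autoImplicit false

namespace Pool.Agent.Q149.FT

open Filter Topology Finset
open Pool.Agent.Q283.FT
open Pool.Agent.Q269.SL (law2 law2_nonneg)
open Q44.JQ (lawc)

theorem lawc_nonneg (c : ZMod 2) (j : ℕ) : 0 ≤ lawc c j := by
  unfold lawc
  have h := law2_nonneg j
  split
  · linarith
  · exact le_rfl

theorem lawc_le (c : ZMod 2) (j : ℕ) : lawc c j ≤ 2 * law2 j := by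
  unfold lawc
  have h := law2_nonneg j
  split
  · exact le_rfl
  · linarith

theorem summable_lawc (c : ZMod 2) : Summable fun j : ℕ => (j : ℝ) * lawc c j := by
  have h := Pool.Agent.Q269.AV.summable_elaw.mul_left 2
  refine Summable.of_nonneg_of_le (fun r => mul_nonneg (Nat.cast_nonneg _) (lawc_nonneg c r))
    (fun r => ?_) h
  have h3 := mul_le_mul_of_nonneg_left (lawc_le c r) (Nat.cast_nonneg (α := ℝ) r)
  refine h3.trans (le_of_eq ?_)
  ring

theorem sum_le_mean (c : ZMod 2) (R : ℕ) :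
    ∑ j ∈ range R, (j : ℝ) * lawc c j ≤ ∑' j : ℕ, (j : ℝ) * lawc c j :=
  (summable_lawc c).sum_le_tsum _ fun i _ => mul_nonneg (Nat.cast_nonneg _) (lawc_nonneg c i)

theorem mono_div2 (R n : ℕ) (hn : R + 1 ≤ n) :
    (n : ℝ) ≤ ((R : ℝ) + 1) / (2 : ℝ) ^ (R + 1) * (2 : ℝ) ^ n := by
  have hpos : (0 : ℝ) < (2 : ℝ) ^ (R + 1) := by positivity
  rw [div_mul_eq_mul_div, le_div_iff₀ hpos]
  induction n, hn using Nat.le_induction with
  | base => push_cast; exact le_rfl
  | succ n hn ih =>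
    have h1 : (1 : ℝ) ≤ n := by exact_mod_cast (by omega : 1 ≤ n)
    calc ((n + 1 : ℕ) : ℝ) * (2 : ℝ) ^ (R + 1) ≤ (2 * n) * (2 : ℝ) ^ (R + 1) := by
          apply mul_le_mul_of_nonneg_right _ hpos.le
          push_cast
          linarith
      _ = 2 * (n * (2 : ℝ) ^ (R + 1)) := by ring
      _ ≤ 2 * (((R : ℝ) + 1) * (2 : ℝ) ^ n) := mul_le_mul_of_nonneg_left ih (by positivity)
      _ = _ := by ring

theorem mlc : S_MLC := by
  intro c C ε hε
  obtain ⟨R, hR⟩ : ∃ R : ℕ, max C 0 * (((R : ℝ) + 1) / (2 : ℝ) ^ (R + 1)) ≤ ε / 2 := by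
    have h := tendsto_pow_const_div_const_pow_of_one_lt 1 (show (1 : ℝ) < 2 by norm_num)
    have h2 := (tendsto_add_atTop_iff_nat 1).2 h
    have h3 := (h2.const_mul (max C 0)).eventually
      (ge_mem_nhds (show (max C 0) * (0 : ℝ) < ε / 2 by rw [mul_zero]; linarith))
    obtain ⟨R, hR⟩ := h3.exists
    refine ⟨R, ?_⟩
    simpa using hR
  refine ⟨R, ε / (2 * ((R : ℝ) + 1) ^ 2), by positivity, ?_⟩
  intro α T r hlaw hmom
  set δ : ℝ := ε / (2 * ((R : ℝ) + 1) ^ 2) with hδ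
  have hδ0 : 0 < δ := by positivity
  have hδ2 : δ * ((R : ℝ) + 1) ^ 2 ≤ ε / 2 := by
    apply le_of_eq
    rw [hδ]
    field_simp
  set K : ℝ := ((R : ℝ) + 1) / (2 : ℝ) ^ (R + 1) with hK
  have hK0 : 0 ≤ K := by positivity
  have hT : (0 : ℝ) ≤ T.card := Nat.cast_nonneg _
  have h1 : ∀ q ∈ T, (r q : ℝ) ≤
      (∑ j ∈ range (R + 1), if r q = j then (j : ℝ) else 0) + K * (2 : ℝ) ^ r q := by
    intro q _
    rw [sum_ite_eq]
    by_cases hq : r q ∈ range (R + 1)
    · rw [if_pos hq]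
      have : 0 ≤ K * (2 : ℝ) ^ r q := by positivity
      linarith
    · rw [if_neg hq, zero_add]
      rw [mem_range, not_lt] at hq
      exact mono_div2 R (r q) hq
  have h2 : ∑ q ∈ T, ∑ j ∈ range (R + 1), (if r q = j then (j : ℝ) else 0) ≤
      (∑' j : ℕ, (j : ℝ) * lawc c j + δ * ((R : ℝ) + 1) ^ 2) * T.card := by
    rw [sum_comm]
    have h3 : ∀ j ∈ range (R + 1), ∑ q ∈ T, (if r q = j then (j : ℝ) else 0) ≤
        ((j : ℝ) * lawc c j + δ * ((R : ℝ) + 1)) * T.card := by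
      intro j hj
      rw [mem_range] at hj
      rw [← sum_filter, sum_const, nsmul_eq_mul]
      have h4 := (abs_le.1 (hlaw j (by omega))).2
      have h5 : ((T.filter (fun q => r q = j)).card : ℝ) ≤ (lawc c j + δ) * T.card := by
        have h5' : (lawc c j + δ) * (T.card : ℝ) = δ * T.card + lawc c j * T.card := by ring
        rw [h5']
        convert (sub_le_iff_le_add.1 h4) using 3
      have h6 : (j : ℝ) ≤ (R : ℝ) + 1 := by exact_mod_cast (by omega : j ≤ R + 1)
      calc ((T.filter (fun q => r q = j)).card : ℝ) * j ≤ ((lawc c j + δ) * T.card) * j :=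
            mul_le_mul_of_nonneg_right h5 (Nat.cast_nonneg _)
        _ = (j * lawc c j + δ * j) * T.card := by ring
        _ ≤ _ := by
            apply mul_le_mul_of_nonneg_right _ hT
            have := mul_le_mul_of_nonneg_left h6 hδ0.le
            linarith
    refine (sum_le_sum h3).trans ?_
    rw [← sum_mul, sum_add_distrib, sum_const, card_range, nsmul_eq_mul]
    apply mul_le_mul_of_nonneg_right _ hT
    have h7 := sum_le_mean c (R + 1)
    push_cast
    nlinarith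
  have h8 : ∑ q ∈ T, K * (2 : ℝ) ^ r q ≤ ε / 2 * T.card := by
    rw [← mul_sum]
    calc K * ∑ q ∈ T, (2 : ℝ) ^ r q ≤ K * (C * T.card) :=
          mul_le_mul_of_nonneg_left hmom hK0
      _ ≤ K * (max C 0 * T.card) := by
          apply mul_le_mul_of_nonneg_left _ hK0
          exact mul_le_mul_of_nonneg_right (le_max_left _ _) hT
      _ = (max C 0 * K) * T.card := by ring
      _ ≤ _ := mul_le_mul_of_nonneg_right hR hT
  have h9 := sum_le_sum h1
  rw [sum_add_distrib] at h9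
  have h10 : δ * ((R : ℝ) + 1) ^ 2 * T.card ≤ ε / 2 * T.card := mul_le_mul_of_nonneg_right hδ2 hT
  have h11 : (∑' j : ℕ, (j : ℝ) * lawc c j + δ * ((R : ℝ) + 1) ^ 2) * T.card =
      (∑' j : ℕ, (j : ℝ) * lawc c j) * T.card + δ * ((R : ℝ) + 1) ^ 2 * T.card := by ring
  have h12 : (∑' j : ℕ, (j : ℝ) * lawc c j + ε) * T.card =
      (∑' j : ℕ, (j : ℝ) * lawc c j) * T.card + ε / 2 * T.card + ε / 2 * T.card := by ring
  linarith

end Pool.Agent.Q149.FT
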